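import Pool.Agent.U342.SD.Space

/-!
# Pointwise function spaces into strong d-spaces

There is a countable strong `d`-space `Z` such that the space of continuous maps from the discrete
two-point space to `Z`, with the topology of pointwise convergence (that is, `Z × Z`), is not a
strong `d`-space.
-/

namespace Pool.Agent.Results.MP_5f2357_gt.DiscreteTwo

open Pool.Agent.U342.SD

theorem result : ∃ (X : Type) (_ : TopologicalSpace X) (Y : Type) (_ : TopologicalSpace Y),
    T0Space X ∧ StrongDSpace Y ∧ ¬ StrongDSpace {f : X → Y // Continuous f} := by
  refine ⟨Bool, inferInstance, Z, inferInstance, inferInstance, strong, fun h => ?_⟩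
  refine not_strong (StrongDSpace.of_homeomorph (X := {f : Bool → Z // Continuous f}) ?_ h)
  exact
    { toFun := fun f => f.1
      invFun := fun f => ⟨f, continuous_of_discreteTopology⟩
      left_inv := fun _ => rfl
      right_inv := fun _ => rfl
      continuous_toFun := continuous_subtype_val
      continuous_invFun := continuous_id.subtype_mk _ }

end Pool.Agent.Results.MP_5f2357_gt.DiscreteTwo
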